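import Pool.Agent.H96.SYZ.Decide

/-!
# The existence of one Lagrangian fibration on one very simple manifold decides the strong SYZ
conjecture for a given pair `(M, L)`

Consider the compact hyperkähler manifolds of one deformation type (a connected component of the moduli
space of marked manifolds) with second Betti number `n ≥ 5`, and any non-empty open set `W` of periods,
as small as you like. Let `L₀` be a non-trivial nef line bundle with `q = 0` on a manifold `M₀` of this
type. Then there is a projective manifold `M` of this type with period in `W`, Picard number two, and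
no MBM classes of type `(1,1)` (so its Kähler cone is a component of the positive cone, and `M` has no
other bimeromorphic hyperkähler models), such that the conclusion of the strong SYZ conjecture holds for
`(M₀, L₀)` if and only if `M` has a Lagrangian fibration at all, whatever its line bundle. There is also such
an `M` which is not projective and has Picard number one. Finitely many such `M` decide the conjecture
for the deformation type, so the strong conjecture for all manifolds is equivalent to the weak one (if
there is a non-trivial nef line bundle with `q = 0`, there is some Lagrangian fibration) for these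
special `M`.

Proof: we look for two classes `f`, `g` of the orbit of the class of `L₀` under the monodromy
group, near two given isotropic directions which are orthogonal to a given period, such that the lattice of
the integral classes in the plane of `f` and `g` has no vectors of small negative square; the second
class is found as the image under a high power of an Eichler transvection of a third class of the
orbit, chosen so that the denominators stay bounded while `q (f, g)` grows, the sign of the square of the
class which defines the transvection being free as `n ≥ 5`. A generic period in `W` orthogonal to `f` and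
`g` belongs to the manifold `M`. All isotropic nef classes of `M` are positive rational multiples of `f`
or `g`, both in the orbit of `L₀`, so any Lagrangian fibration on `M` is a deformation of the one
sought, and Matsushita's theorem transports it to `(M₀, L₀)`.
-/

set_option autoImplicit false

universe u

namespace Pool.Agent.Results.MP_a405d2_ag.OneFibrationDecides

open Pool.Agent.Q50.HK Pool.Agent.Q34.HF Pool.Agent.H96.SYZ

theorem result {n : ℕ} (hn : 5 ≤ n) (T : Fibrations.{u} n) (hT : T.Facts) (hp : PullFacts T)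
    (W : Set (Fin n → ℂ)) (hW : IsOpen W) (hW0 : ∃ z ∈ W, Symp T.toModuli z) :
    (∀ M₀ l₀, T.NefIsotropic M₀ l₀ →
      (∃ M, PeriodIn T.toModuli W M ∧ T.Projective M ∧ T.picard M = 2 ∧ NoWalls T.toModuli M ∧
        (∃ φ ∈ T.mon, T.NefIsotropic M (φ l₀)) ∧ (T.SYZ M₀ l₀ ↔ Nonempty (T.Fib M))) ∧
      (∃ M, PeriodIn T.toModuli W M ∧ ¬ T.Projective M ∧ T.picard M = 1 ∧
        NoWalls T.toModuli M ∧ (∃ φ ∈ T.mon, T.NefIsotropic M (φ l₀)) ∧
        (T.SYZ M₀ l₀ ↔ Nonempty (T.Fib M)))) ∧
    (∃ (m : ℕ) (M : Fin m → T.Mk), (∀ i, (PeriodIn T.toModuli W (M i) ∧ T.Projective (M i) ∧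
        T.picard (M i) = 2 ∧ NoWalls T.toModuli (M i)) ∧ ∃ l, T.NefIsotropic (M i) l) ∧
      ((∀ M l, T.NefIsotropic M l → T.SYZ M l) ↔ ∀ i, Nonempty (T.Fib (M i)))) ∧
    (∃ (m : ℕ) (M : Fin m → T.Mk), (∀ i, (PeriodIn T.toModuli W (M i) ∧ ¬ T.Projective (M i) ∧
        T.picard (M i) = 1 ∧ NoWalls T.toModuli (M i)) ∧ ∃ l, T.NefIsotropic (M i) l) ∧
      ((∀ M l, T.NefIsotropic M l → T.SYZ M l) ↔ ∀ i, Nonempty (T.Fib (M i)))) ∧
    [(∀ M l, T.NefIsotropic M l → T.SYZ M l),
     (∀ M, (∃ l, T.NefIsotropic M l) → Nonempty (T.Fib M)),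
     (∀ M, PeriodIn T.toModuli W M → T.Projective M → T.picard M = 2 → NoWalls T.toModuli M →
        (∃ l, T.NefIsotropic M l) → Nonempty (T.Fib M)),
     (∀ M, PeriodIn T.toModuli W M → ¬ T.Projective M → T.picard M = 1 → NoWalls T.toModuli M →
        (∃ l, T.NefIsotropic M l) → Nonempty (T.Fib M))].TFAE := by
  have hP := finitely_many hT hp (fun M => PeriodIn T.toModuli W M ∧ T.Projective M ∧
    T.picard M = 2 ∧ NoWalls T.toModuli M) (fun l hl h0 hq => by
      obtain ⟨M, h1, h2, h3, h4, h5⟩ := exists_projective hT hn hW hW0 hl h0 hq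
      exact ⟨M, ⟨h1, h2, h3, h4⟩, h5⟩)
  have hN := finitely_many hT hp (fun M => PeriodIn T.toModuli W M ∧ ¬ T.Projective M ∧
    T.picard M = 1 ∧ NoWalls T.toModuli M) (fun l hl h0 hq => by
      obtain ⟨M, h1, h2, h3, h4, h5⟩ := exists_nonprojective hT (by omega) hW hW0 hl h0 hq
      exact ⟨M, ⟨h1, h2, h3, h4⟩, h5⟩)
  refine ⟨fun M₀ l₀ hl₀ => ⟨?_, ?_⟩, hP, hN, ?_⟩
  · obtain ⟨M, h1, h2, h3, h4, h5⟩ :=
      exists_projective hT hn hW hW0 hl₀.1.1 hl₀.2.1 hl₀.2.2.1
    exact ⟨M, h1, h2, h3, h4, h5.1, syz_iff hT hp h5 hl₀ (χ := 1) T.mon.one_mem one_pos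
      (by rw [Nat.cast_one, one_smul]; rfl)⟩
  · obtain ⟨M, h1, h2, h3, h4, h5⟩ :=
      exists_nonprojective hT (by omega) hW hW0 hl₀.1.1 hl₀.2.1 hl₀.2.2.1
    exact ⟨M, h1, h2, h3, h4, h5.1, syz_iff hT hp h5 hl₀ (χ := 1) T.mon.one_mem one_pos
      (by rw [Nat.cast_one, one_smul]; rfl)⟩
  · tfae_have 1 → 2 := by
      rintro h M ⟨l, hl⟩
      obtain ⟨π, -⟩ := h M l hl
      exact ⟨π⟩
    tfae_have 2 → 3 := fun h M _ _ _ _ hl => h M hl
    tfae_have 2 → 4 := fun h M _ _ _ _ hl => h M hl
    tfae_have 3 → 1 := by
      obtain ⟨m, M, hM, hiff⟩ := hP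
      intro h
      exact hiff.2 fun i => h (M i) (hM i).1.1 (hM i).1.2.1 (hM i).1.2.2.1 (hM i).1.2.2.2 (hM i).2
    tfae_have 4 → 1 := by
      obtain ⟨m, M, hM, hiff⟩ := hN
      intro h
      exact hiff.2 fun i => h (M i) (hM i).1.1 (hM i).1.2.1 (hM i).1.2.2.1 (hM i).1.2.2.2 (hM i).2
    tfae_finish

end Pool.Agent.Results.MP_a405d2_ag.OneFibrationDecides
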